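import Pool.Agent.Lib.MP_fa837f_gt.TS.H1.Comb
import Pool.Agent.Lib.MP_fa837f_gt.TS.H1.SecFour
import Pool.Agent.Lib.MP_fa837f_gt.TS.H14.Sch
import Pool.Agent.Lib.MP_fa837f_gt.TS.H16.Moll
import Pool.Agent.Lib.MP_fa837f_gt.TS.H17.Diff
import Pool.Agent.Lib.MP_fa837f_gt.TS.H17.Expi
import Pool.Agent.Lib.MP_fa837f_gt.TS.H17.Reg
import Pool.Agent.Lib.MP_fa837f_gt.TS.H18.Sec2
import Pool.Agent.Lib.MP_fa837f_gt.TS.H22.Pla1
import Pool.Agent.Lib.MP_fa837f_gt.TS.H3.Pla2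
import Pool.Agent.Lib.MP_fa837f_gt.TS.H30.Dsv
import Pool.Agent.Lib.MP_fa837f_gt.TS.H30.Kid
import Pool.Agent.Lib.MP_fa837f_gt.TS.H30.Norm
import Pool.Agent.Lib.MP_fa837f_gt.TS.H30.Par
import Pool.Agent.Lib.MP_fa837f_gt.TS.H32.Smooth
import Pool.Agent.Lib.MP_fa837f_gt.TS.H4.Hyp
import Pool.Agent.Lib.MP_fa837f_gt.TS.H4.Pos
import Pool.Agent.Lib.MP_fa837f_gt.TS.H45.TS1
import Pool.Agent.Lib.MP_fa837f_gt.TS.H50.Pla3
import Pool.Agent.Lib.MP_fa837f_gt.TS.H50.Twv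
import Pool.Agent.Lib.MP_fa837f_gt.TS.H53.Basic
import Pool.Agent.Lib.MP_fa837f_gt.TS.H53.Mix
import Pool.Agent.Lib.MP_fa837f_gt.TS.H63.Pla0
import Pool.Agent.Lib.MP_fa837f_gt.TS.H63.Plc
import Pool.Agent.Lib.MP_fa837f_gt.TS.H63.Posc
import Pool.Agent.Lib.MP_fa837f_gt.TS.H76.Prek
import Pool.Agent.Lib.MP_fa837f_gt.TS.H87.Cube
import Pool.Agent.Lib.MP_fa837f_gt.TS.H87.Sec3
import Pool.Agent.Lib.MP_fa837f_gt.TS.H93.Main
import Pool.Agent.Lib.MP_fa837f_gt.TS.H94.Sign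
import Pool.Agent.Lib.MP_fa837f_gt.TS.H95.Lim
import Pool.Agent.Lib.MP_fa837f_gt.TS.H95.Sec1
import Pool.Agent.Lib.MP_fa837f_gt.TS.H95.Sm0

/-!
Assembly of the project TS.
-/

set_option autoImplicit false

namespace Pool.Agent.Lib.MP_fa837f_gt.TS.H99

theorem a_diff : DiffStatement := H17.diff H17.expi
theorem a_sm0 : Sm0Statement := H95.sm0 H17.expi a_diff H30.kid H94.sign
theorem a_smooth : SmoothStatement := H32.smooth a_diff a_sm0
theorem a_ts1 : Ts1Statement :=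
  H45.ts1 (H17.reg H16.moll) a_smooth (H95.lim H17.expi) (H4.pos H17.expi)
theorem a_sec2 : Sec2Statement := H18.sec2 H95.sec1
theorem a_sec3 : Sec3Statement := H87.sec3 H95.sec1
theorem a_sec4 : Sec4Statement := H1.sec4 H95.sec1 a_sec2 a_sec3
theorem a_comb : CombStatement := H1.comb a_ts1 H95.sec1 a_sec2 a_sec3 a_sec4
theorem a_plc : PlcStatement := H63.plc H53.basic (H53.mix H53.basic) H76.prek

theorem a_pla2 : Pla2Statement := H3.pla2 H14.sch (H22.pla1 H63.pla0)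

theorem a_cube : CubeStatement :=
  H87.cube a_comb H63.posc (H50.twv H30.par H30.norm_module) (H30.dsv H30.par) H63.permv
    (H87.small H30.par H63.posc (H50.pla3 a_pla2 H53.basic))

theorem a_main : MainStatement := H93.main a_cube a_plc

theorem a_hyp : HypStatement := H4.hyp

end Pool.Agent.Lib.MP_fa837f_gt.TS.H99
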